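import Pool.Agent.helper35.LV.Spec

/-!
# Row `lv:T2B` (MP_a2a22c): the Levi criterion, `W` and the quotient of rank at least two, no unipotent elements
-/

set_option autoImplicit false

namespace Pool.Agent.LV

open Matrix Pool.Agent.H48SL Pool.Agent.UG

theorem T2B_dep {n : ℕ} {w u : Fin n → ℤ} (hw : w ≠ 0) (h : ∀ φ : Fin n → ℤ, φ ⬝ᵥ w = 0 → φ ⬝ᵥ u = 0) :
    ∃ a b : ℤ, a ≠ 0 ∧ a • u = b • w := by
  obtain ⟨i, hi⟩ : ∃ i, w i ≠ 0 := by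
    by_contra hc
    push Not at hc
    exact hw (funext hc)
  refine ⟨w i, u i, hi, funext fun k => ?_⟩
  have h1 := h (Pi.single k (w i) - Pi.single i (w k)) (by
    rw [sub_dotProduct, single_dotProduct, single_dotProduct]; ring)
  rw [sub_dotProduct, single_dotProduct, single_dotProduct] at h1
  rw [Pi.smul_apply, Pi.smul_apply, smul_eq_mul, smul_eq_mul]
  linarith

theorem T2B_fix {n : ℕ} (g : SLZ n) (w : Fin n → ℤ) (h : (g : Matrix (Fin n) (Fin n) ℤ) *ᵥ w = w) (m : ℤ) :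
    ((g ^ m : SLZ n) : Matrix (Fin n) (Fin n) ℤ) *ᵥ w = w := by
  have h1 : ∀ k : ℕ, ((g ^ k : SLZ n) : Matrix (Fin n) (Fin n) ℤ) *ᵥ w = w := by
    intro k
    induction k with
    | zero => rw [pow_zero, mv_one]
    | succ k ih => rw [pow_succ, mv_mul, h, ih]
  obtain ⟨k, rfl | rfl⟩ := m.eq_nat_or_neg
  · rw [zpow_natCast]; exact h1 k
  · rw [_root_.zpow_neg, zpow_natCast]
    have h2 := mv_inv_left (g ^ k) w
    rw [h1 k] at h2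
    exact h2

theorem T2B_com {n : ℕ} (H : Subgroup (SLZ n)) (W : Submodule ℤ (Fin n → ℤ)) (hK : ∀ κ ∈ H, κ ∈ Uni W → κ = 1)
    (h₁ h₂ : SLZ n) (m₁ : h₁ ∈ H) (m₂ : h₂ ∈ H) (f₁ : ∀ w ∈ W, (h₁ : Matrix (Fin n) (Fin n) ℤ) *ᵥ w = w)
    (f₂ : ∀ v, (h₂ : Matrix (Fin n) (Fin n) ℤ) *ᵥ v - v ∈ W) : h₁ * h₂ = h₂ * h₁ := by
  have i₁ : ∀ w ∈ W, ((h₁⁻¹ : SLZ n) : Matrix (Fin n) (Fin n) ℤ) *ᵥ w = w := by
    intro w hw
    have := mv_inv_left h₁ w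
    rw [f₁ w hw] at this
    exact this
  have i₂ : ∀ w ∈ W, ((h₂⁻¹ : SLZ n) : Matrix (Fin n) (Fin n) ℤ) *ᵥ w ∈ W := by
    intro w hw
    have h3 := f₂ (((h₂⁻¹ : SLZ n) : Matrix (Fin n) (Fin n) ℤ) *ᵥ w)
    rw [mv_inv_right] at h3
    have h4 := W.sub_mem hw h3
    rw [sub_sub_cancel] at h4
    exact h4
  have j₂ : ∀ w ∈ W, (h₂ : Matrix (Fin n) (Fin n) ℤ) *ᵥ w ∈ W := by
    intro w hw
    have h4 := W.add_mem (f₂ w) hw
    rw [sub_add_cancel] at h4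
    exact h4
  have key : h₁ * h₂ * (h₂ * h₁)⁻¹ = 1 := by
    refine hK _ (H.mul_mem (H.mul_mem m₁ m₂) (H.inv_mem (H.mul_mem m₂ m₁))) ?_
    rw [mem_Uni]
    constructor
    · intro w hw
      rw [_root_.mul_inv_rev, mv_mul, mv_mul, mv_mul, i₁ _ (i₂ w hw), mv_inv_right, f₁ w hw]
    · intro v
      obtain ⟨u, rfl⟩ : ∃ u, v = ((h₂ * h₁ : SLZ n) : Matrix (Fin n) (Fin n) ℤ) *ᵥ u :=
        ⟨(((h₂ * h₁)⁻¹ : SLZ n) : Matrix (Fin n) (Fin n) ℤ) *ᵥ v, (mv_inv_right _ _).symm⟩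
      rw [mv_mul, mv_inv_left, mv_mul, mv_mul]
      have h5 := f₂ u
      have h6 := f₁ _ h5
      rw [mulVec_sub] at h6
      have h7 := f₂ ((h₁ : Matrix (Fin n) (Fin n) ℤ) *ᵥ u)
      have h8 : (h₁ : Matrix (Fin n) (Fin n) ℤ) *ᵥ ((h₂ : Matrix (Fin n) (Fin n) ℤ) *ᵥ u) -
          (h₂ : Matrix (Fin n) (Fin n) ℤ) *ᵥ ((h₁ : Matrix (Fin n) (Fin n) ℤ) *ᵥ u) =
          ((h₂ : Matrix (Fin n) (Fin n) ℤ) *ᵥ u - u) -
          ((h₂ : Matrix (Fin n) (Fin n) ℤ) *ᵥ ((h₁ : Matrix (Fin n) (Fin n) ℤ) *ᵥ u) - (h₁ : Matrix (Fin n) (Fin n) ℤ) *ᵥ u) := by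
        rw [← h6]; abel
      rw [h8]
      exact W.sub_mem h5 h7
  exact mul_inv_eq_one.1 key

theorem T2B (hFCQ : FCQ_stmt) (hCHI : CHI_stmt) : T2B_stmt := by
  intro n hn H hD W x₁ x₂ hind w₁ hw₁ w₂ hw₂ hI hPQ hPW hK
  obtain ⟨D, χ₁, χ₂, hD0, hχW, -, h11, h12, -, -⟩ := hCHI n W x₁ x₂ hind
  obtain ⟨j, hj, h₁, m₁, f₁, q₁⟩ := hPQ x₂ χ₁ hχW h12
  have hj0 : (j : ℤ) ≠ 0 := by
    have : j ≠ 0 := by omega
    exact_mod_cast this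
  -- `h₂ (h₁ u - u) = h₁ u - u`
  have com : ∀ h₂ ∈ H, (∀ v, (h₂ : Matrix (Fin n) (Fin n) ℤ) *ᵥ v - v ∈ W) → ∀ u,
      (h₂ : Matrix (Fin n) (Fin n) ℤ) *ᵥ ((h₁ : Matrix (Fin n) (Fin n) ℤ) *ᵥ u - u) = (h₁ : Matrix (Fin n) (Fin n) ℤ) *ᵥ u - u := by
    intro h₂ m₂ f₂ u
    have h3 := T2B_com H W hK h₁ h₂ m₁ m₂ f₁ f₂
    have h6 := f₁ _ (f₂ u)
    rw [mulVec_sub, ← mv_mul, h3] at h6
    rw [mulVec_sub, ← mv_mul, sub_eq_sub_iff_add_eq_add]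
    rw [sub_eq_sub_iff_add_eq_add] at h6
    rw [h6, add_comm]
  have ha : ∀ u, (h₁ : Matrix (Fin n) (Fin n) ℤ) *ᵥ u - u ∈ W → (h₁ : Matrix (Fin n) (Fin n) ℤ) *ᵥ u - u = 0 := by
    intro u' hu
    have aux : ∀ w₀ ∈ W, w₀ ≠ 0 → ∃ a b : ℤ, a ≠ 0 ∧ a • ((h₁ : Matrix (Fin n) (Fin n) ℤ) *ᵥ u' - u') = b • w₀ := by
      intro w₀ hw₀ hne
      refine T2B_dep hne fun φ hφ => ?_
      obtain ⟨j', hj', h₂, m₂, f₂, q₂⟩ := hPW w₀ hw₀ φ hφ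
      have h3 := f₂ _ hu
      rw [com h₂ m₂ q₂ u', left_eq_add] at h3
      rcases smul_eq_zero.1 h3 with h4 | h4
      · rcases mul_eq_zero.1 h4 with h5 | h5
        · exfalso
          have : j' = 0 := by exact_mod_cast h5
          omega
        · exact h5
      · exact absurd h4 hne
    obtain ⟨a₁, b₁, ha₁, e₁⟩ := aux w₁ hw₁ hI.ne_left
    obtain ⟨a₂, b₂, ha₂, e₂⟩ := aux w₂ hw₂ hI.ne_right
    have h3 : (a₂ * b₁) • w₁ + (-(a₁ * b₂)) • w₂ = 0 := by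
      rw [mul_smul, ← e₁, neg_smul, mul_smul, ← e₂, smul_smul, smul_smul, mul_comm a₂ a₁, add_neg_cancel]
    have h4 := (hI _ _ h3).1
    have h5 : b₁ = 0 := (mul_eq_zero.1 h4).resolve_left ha₂
    rw [h5, zero_smul] at e₁
    exact (smul_eq_zero.1 e₁).resolve_left ha₁
  have hb : ∀ u, χ₁ ⬝ᵥ u = 0 → (h₁ : Matrix (Fin n) (Fin n) ℤ) *ᵥ u - u = 0 := by
    intro u hu
    refine ha u ?_
    have h3 := q₁ u
    rw [hu, mul_zero, zero_smul, sub_zero] at h3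
    exact h3
  set Y : Fin n → ℤ := (h₁ : Matrix (Fin n) (Fin n) ℤ) *ᵥ x₁ - x₁ with hY
  have hYu : ∀ u, D • ((h₁ : Matrix (Fin n) (Fin n) ℤ) *ᵥ u - u) = (χ₁ ⬝ᵥ u) • Y := by
    intro u
    have h3 := hb (D • u - (χ₁ ⬝ᵥ u) • x₁) (by
      rw [dotProduct_sub, dotProduct_smul, dotProduct_smul, h11, smul_eq_mul, smul_eq_mul]; ring)
    rw [mulVec_sub, mulVec_smul, mulVec_smul] at h3
    rw [hY, smul_sub, smul_sub]
    rw [← sub_eq_zero]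
    rw [← h3]
    abel
  have hYW : Y - ((j : ℤ) * D) • x₂ ∈ W := by
    have h3 := q₁ x₁
    rw [h11] at h3
    exact h3
  have hY0 : Y ≠ 0 := by
    intro h0
    rw [h0, zero_sub] at hYW
    have h3 := hind 0 (-((j : ℤ) * D)) (by rw [zero_smul, zero_add, neg_smul]; exact hYW)
    have h4 := neg_eq_zero.1 h3.2
    rcases mul_eq_zero.1 h4 with h5 | h5
    · exact hj0 h5
    · exact hD0 h5
  have hχY : χ₁ ⬝ᵥ Y = 0 := by
    have h3 := hχW _ hYW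
    rw [dotProduct_sub, dotProduct_smul, h12, smul_zero, sub_zero] at h3
    exact h3
  have hDq : (D : ℚ) ≠ 0 := by exact_mod_cast hD0
  -- an element which moves `w₂` by a multiple of `w₁`
  obtain ⟨φ, hφ1, hφ2⟩ : ∃ φ : Fin n → ℤ, φ ⬝ᵥ w₁ = 0 ∧ φ ⬝ᵥ w₂ ≠ 0 := by
    by_contra hc
    push Not at hc
    obtain ⟨a, b, ha0, e⟩ := T2B_dep hI.ne_left hc
    have h3 := hI b (-a) (by rw [neg_smul, e, add_neg_cancel])
    exact ha0 (neg_eq_zero.1 h3.2)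
  obtain ⟨j', hj', h₂, m₂, f₂, q₂⟩ := hPW w₁ hw₁ φ hφ1
  have hj'0 : (j' : ℤ) ≠ 0 := by
    have : j' ≠ 0 := by omega
    exact_mod_cast this
  refine hFCQ n hn H hD h₁ m₁ h₂ m₂ ((D : ℚ)⁻¹ • castV Y) (castV χ₁) ?_ ?_ ?_ ?_ ?_ (Or.inr ?_)
  · intro h0
    rcases smul_eq_zero.1 h0 with h3 | h3
    · exact hDq (inv_eq_zero.1 h3)
    · exact hY0 (castV_inj (h3.trans castV_zero.symm))
  · intro h0
    have h3 : χ₁ = 0 := castV_inj (h0.trans castV_zero.symm)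
    rw [h3, zero_dotProduct] at h11
    exact hD0 h11.symm
  · rw [dotProduct_smul, castV_dot, hχY, Int.cast_zero, smul_zero]
  · ext p q
    have h3 := congrFun (hYu (Pi.single q 1)) p
    have h4 : ((h₁ : Matrix (Fin n) (Fin n) ℤ) *ᵥ Pi.single q 1) p = (h₁ : Matrix (Fin n) (Fin n) ℤ) p q := by
      rw [mulVec_single_one]; rfl
    rw [Pi.smul_apply, Pi.smul_apply, Pi.sub_apply, h4, dotProduct_single, mul_one, smul_eq_mul, smul_eq_mul] at h3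
    rw [qg_apply, Matrix.add_apply, vecMulVec_apply, Pi.smul_apply, smul_eq_mul]
    have h5 : (D : ℚ) * ((((h₁ : Matrix (Fin n) (Fin n) ℤ) p q : ℤ) : ℚ) - ((Pi.single q 1 : Fin n → ℤ) p : ℚ)) = (χ₁ q : ℚ) * (Y p : ℚ) := by
      exact_mod_cast h3
    have h6 : (1 : MQ n) p q = ((Pi.single q 1 : Fin n → ℤ) p : ℚ) := by
      by_cases hpq : p = q
      · subst hpq; simp
      · simp [hpq]
    rw [h6]
    simp only [castV]
    field_simp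
    linarith
  · rw [mulVec_smul, qg_mulVec_castV, com h₂ m₂ q₂ x₁, dotProduct_smul, castV_dot, hχY, Int.cast_zero, smul_zero]
  · intro k hk m hkm
    have h3 : ∀ k : ℕ, ((h₂ ^ k : SLZ n) : Matrix (Fin n) (Fin n) ℤ) *ᵥ w₂ = w₂ + ((k : ℤ) * ((j' : ℤ) * (φ ⬝ᵥ w₂))) • w₁ := by
      intro k
      induction k with
      | zero => rw [pow_zero, mv_one, Nat.cast_zero, zero_mul, zero_smul, add_zero]
      | succ k ih =>
        rw [pow_succ', mv_mul, ih, mulVec_add, mulVec_smul, f₂ w₂ hw₂, f₂ w₁ hw₁, hφ1, mul_zero, zero_smul, add_zero, add_assoc, ← add_smul]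
        congr 2
        push_cast
        ring
    have h4 := h3 k
    rw [hkm, T2B_fix h₁ w₂ (f₁ w₂ hw₂) m, left_eq_add] at h4
    rcases smul_eq_zero.1 h4 with h5 | h5
    · rcases mul_eq_zero.1 h5 with h6 | h6
      · have : k = 0 := by exact_mod_cast h6
        omega
      · rcases mul_eq_zero.1 h6 with h7 | h7
        · exact hj'0 h7
        · exact hφ2 h7
    · exact hI.ne_left h5

end Pool.Agent.LV
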